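import Pool.Agent.H31.DC.D18

open scoped RealInnerProductSpace ContDiff
open Module DupinClass

namespace Pool.Agent.Results.MP_eed254_gt.ReducibleDupinPinkall

/-- A pointed immersed hypersurface (in a chart) of the unit sphere of a Euclidean space `H`. -/
structure PHyp : Type 1 where
  X : Type
  H : Type
  [nX : NormedAddCommGroup X]
  [sX : NormedSpace ℝ X]
  [fX : FiniteDimensional ℝ X]
  [nH : NormedAddCommGroup H]
  [sH : InnerProductSpace ℝ H]
  [fH : FiniteDimensional ℝ H]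
  M : SHyp X H
  pt : X
  mem : pt ∈ M.U

attribute [instance] PHyp.nX PHyp.sX PHyp.fX PHyp.nH PHyp.sH PHyp.fH

/-- The hypersurface `M`, with the chosen point `pt`. -/
@[reducible] def PHyp.of {X H : Type} [NormedAddCommGroup X] [NormedSpace ℝ X]
    [FiniteDimensional ℝ X] [NormedAddCommGroup H] [InnerProductSpace ℝ H] [FiniteDimensional ℝ H]
    (M : SHyp X H) (pt : X) (mem : pt ∈ M.U) : PHyp where
  X := X
  H := H
  M := M
  pt := pt
  mem := mem

/-- Local Lie equivalence at the chosen points. -/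
def PHyp.LieEq (A B : PHyp) : Prop := A.M.LieEq A.pt B.M B.pt

/-- The hypersurface is proper Dupin with three distinct principal curvatures. -/
def PHyp.Dupin₃ (A : PHyp) : Prop := ProperDupin A.M.f A.M.ν A.M.U 3

/-- The hypersurface is proper Dupin with three distinct principal curvatures, of the
multiplicities `p, q, m`. -/
def PHyp.DupinWith (A : PHyp) (p q m : ℕ) : Prop := ProperDupinWith A.M.f A.M.ν A.M.U ![p, q, m]

/-- The hypersurface is reducible at the chosen point, in the sense of the problem file (tubes). -/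
def PHyp.TubeReducible (A : PHyp) : Prop := A.M.ReducibleAt A.pt

/-- The hypersurface is reducible at the chosen point, in the sense of Pinkall (cylinders,
hypersurfaces of revolution, tubes, cones). -/
def PHyp.Reducible (A : PHyp) : Prop := A.M.ReducibleAt' A.pt

section

variable (P Q R : Type) [NormedAddCommGroup P] [InnerProductSpace ℝ P] [FiniteDimensional ℝ P]
  [NormedAddCommGroup Q] [InnerProductSpace ℝ Q] [FiniteDimensional ℝ Q]
  [NormedAddCommGroup R] [InnerProductSpace ℝ R] [FiniteDimensional ℝ R]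

/-- The domain of the hypersurfaces `T`: a product of three open unit balls. -/
def Dom : Type := {z : (P × Q) × R // (‖z.1.1‖ < 1 ∧ ‖z.1.2‖ < 1) ∧ ‖z.2‖ < 1}

/-- The domain of the hypersurfaces `Z`. -/
def DomZ : Type := {z : (P × Q) × R // z.1.2 ≠ 0}

/-- The tube of radius `r` around `W(p, q, ρ)`, `p = dim P`, `q = dim Q`, in `E × R`. -/
noncomputable def modelGen {ρ r : ℝ} (hρ : 0 < ρ) (hr : 0 < r) (y : Dom P Q R) : PHyp :=
  PHyp.of (modelT P Q R hρ hr).toSphere y.1 y.2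

/-- The cylinder over `W₀(p, q)`, `p = dim P`, `q = dim Q`, in `E × R`. -/
noncomputable def modelZGen (y : DomZ P Q R) : PHyp :=
  PHyp.of (modelZ P Q R).toSphere y.1 y.2

variable {P Q R}
variable {P' Q' R' : Type} [NormedAddCommGroup P'] [InnerProductSpace ℝ P']
  [FiniteDimensional ℝ P'] [NormedAddCommGroup Q'] [InnerProductSpace ℝ Q']
  [FiniteDimensional ℝ Q'] [NormedAddCommGroup R'] [InnerProductSpace ℝ R']
  [FiniteDimensional ℝ R']

theorem lieEq_modelGen {A : PHyp} {ρ r : ℝ} {hρ : 0 < ρ} {hr : 0 < r} {y : Dom P Q R}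
    (h : A.M.LieEq A.pt (modelT P Q R hρ hr).toSphere y.1) : A.LieEq (modelGen P Q R hρ hr y) := h

theorem lieEq_modelZGen {A : PHyp} {y : DomZ P Q R}
    (h : A.M.LieEq A.pt (modelZ P Q R).toSphere y.1) : A.LieEq (modelZGen P Q R y) := h

theorem modelGen_dupin (hp : 1 ≤ finrank ℝ P) (hq : 1 ≤ finrank ℝ Q) (hm : 1 ≤ finrank ℝ R)
    {ρ r : ℝ} {hρ : 0 < ρ} {hr : 0 < r} {y : Dom P Q R} :
    (modelGen P Q R hρ hr y).DupinWith (finrank ℝ P) (finrank ℝ Q) (finrank ℝ R) :=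
  (main₂ hp hq hm hρ hr).1

theorem modelGen_reducible (hp : 1 ≤ finrank ℝ P) (hq : 1 ≤ finrank ℝ Q) (hm : 1 ≤ finrank ℝ R)
    {ρ r : ℝ} {hρ : 0 < ρ} {hr : 0 < r} {y : Dom P Q R} :
    (modelGen P Q R hρ hr y).TubeReducible :=
  (main₂ hp hq hm hρ hr).2 y.1 y.2

theorem modelZGen_dupin (hp : 1 ≤ finrank ℝ P) (hq : 1 ≤ finrank ℝ Q) (hm : 1 ≤ finrank ℝ R)
    {y : DomZ P Q R} :
    (modelZGen P Q R y).DupinWith (finrank ℝ P) (finrank ℝ Q) (finrank ℝ R) :=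
  (main₂' hp hq hm).1

theorem modelZGen_reducible (hp : 1 ≤ finrank ℝ P) (hq : 1 ≤ finrank ℝ Q) (hm : 1 ≤ finrank ℝ R)
    {y : DomZ P Q R} : (modelZGen P Q R y).Reducible :=
  (main₂' hp hq hm).2 y.1 y.2

theorem modelGen_lieEq {p q m p' q' m' : ℕ} (hP : finrank ℝ P = p) (hQ : finrank ℝ Q = q)
    (hR : finrank ℝ R = m) (hP' : finrank ℝ P' = p') (hQ' : finrank ℝ Q' = q')
    (hR' : finrank ℝ R' = m') (hp : 1 ≤ p) (hq : 1 ≤ q) (hm : 1 ≤ m) (hp' : 1 ≤ p')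
    (hq' : 1 ≤ q') (hm' : 1 ≤ m') {ρ r ρ' r' : ℝ} {hρ : 0 < ρ} {hr : 0 < r} {hρ' : 0 < ρ'}
    {hr' : 0 < r'} {y : Dom P Q R} {y' : Dom P' Q' R'} :
    (modelGen P Q R hρ hr y).LieEq (modelGen P' Q' R' hρ' hr' y') ↔
      ∃ (π : Equiv.Perm (Fin 3)) (c : ℝ), 0 < c ∧ ∀ i, ![p', q', m'] (π i) = ![p, q, m] i ∧
        ![ρ' ^ 2, 1 - ρ' ^ 2, -1] (π i) = c * ![ρ ^ 2, 1 - ρ ^ 2, -1] i :=
  main₃ hP hQ hR hP' hQ' hR' hp hq hm hp' hq' hm' hρ hr hρ' hr' y.2 y'.2

theorem modelZGen_lieEq {p q m p' q' m' : ℕ} (hP : finrank ℝ P = p) (hQ : finrank ℝ Q = q)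
    (hR : finrank ℝ R = m) (hP' : finrank ℝ P' = p') (hQ' : finrank ℝ Q' = q')
    (hR' : finrank ℝ R' = m') (hp : 1 ≤ p) (hq : 1 ≤ q) (hm : 1 ≤ m) (hp' : 1 ≤ p')
    (hq' : 1 ≤ q') (hm' : 1 ≤ m') {y : DomZ P Q R} {y' : DomZ P' Q' R'} :
    (modelZGen P Q R y).LieEq (modelZGen P' Q' R' y') ↔
      ∃ (π : Equiv.Perm (Fin 3)), ∀ i, ![p', q', m'] (π i) = ![p, q, m] i :=
  main₃' hP hQ hR hP' hQ' hR' hp hq hm hp' hq' hm' y.2 y'.2

theorem modelZGen_not_lieEq {p q m p' q' m' : ℕ} (hP : finrank ℝ P = p) (hQ : finrank ℝ Q = q)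
    (hR : finrank ℝ R = m) (hP' : finrank ℝ P' = p') (hQ' : finrank ℝ Q' = q')
    (hR' : finrank ℝ R' = m') (hp : 1 ≤ p) (hq : 1 ≤ q) (hm : 1 ≤ m) (hp' : 1 ≤ p')
    (hq' : 1 ≤ q') (hm' : 1 ≤ m') {ρ r : ℝ} {hρ : 0 < ρ} {hr : 0 < r} {y : DomZ P Q R}
    {y' : Dom P' Q' R'} : ¬ (modelZGen P Q R y).LieEq (modelGen P' Q' R' hρ hr y') :=
  main₄' hP hQ hR hP' hQ' hR' hp hq hm hp' hq' hm' hρ hr y.2 y'.2

end

/-- The points of `T(p, q, m, ρ; r)`. -/
def Pt (p q m : ℕ) : Type :=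
  Dom (EuclideanSpace ℝ (Fin p)) (EuclideanSpace ℝ (Fin q)) (EuclideanSpace ℝ (Fin m))

/-- The points of `Z(p, q, m)`. -/
def PtZ (p q m : ℕ) : Type :=
  DomZ (EuclideanSpace ℝ (Fin p)) (EuclideanSpace ℝ (Fin q)) (EuclideanSpace ℝ (Fin m))

/-- `T(p, q, m, ρ; r)` at its point `y`. -/
noncomputable def modelTAt (p q m : ℕ) {ρ r : ℝ} (hρ : 0 < ρ) (hr : 0 < r) (y : Pt p q m) : PHyp :=
  modelGen _ _ _ hρ hr y

/-- `Z(p, q, m)` at its point `y`. -/
noncomputable def modelZAt (p q m : ℕ) (y : PtZ p q m) : PHyp := modelZGen _ _ _ y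

/-- `A` is locally Lie equivalent to some `T(p, q, m, ρ; r)`, at all its points, for all `r`. -/
def PHyp.IsT (A : PHyp) : Prop :=
  ∃ p q m : ℕ, 1 ≤ p ∧ 1 ≤ q ∧ 1 ≤ m ∧ p + q + m = finrank ℝ A.X ∧ ∃ (ρ : ℝ) (hρ : 0 < ρ),
    ∀ (r : ℝ) (hr : 0 < r) (y : Pt p q m), A.LieEq (modelTAt p q m hρ hr y)

/-- `A` is locally Lie equivalent to some `Z(p, q, m)`, at all its points. -/
def PHyp.IsZ (A : PHyp) : Prop :=
  ∃ p q m : ℕ, 1 ≤ p ∧ 1 ≤ q ∧ 1 ≤ m ∧ p + q + m = finrank ℝ A.X ∧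
    ∀ y : PtZ p q m, A.LieEq (modelZAt p q m y)

/-- **Classification of the reducible proper Dupin hypersurfaces with three principal curvatures,
up to local Lie equivalence.** -/
theorem result :
    -- every reducible one (in the sense of Pinkall) is locally Lie equivalent to a `T` or a `Z`,
    -- and the tubes (the definition of the problem file) are the `T`
    (∀ A : PHyp, A.Dupin₃ → (A.Reducible → A.IsT ∨ A.IsZ) ∧ (A.TubeReducible → A.IsT)) ∧
    -- the models exist, are proper Dupin with multiplicities `p, q, m`, and are reducible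
    (∀ p q m : ℕ, 1 ≤ p → 1 ≤ q → 1 ≤ m → Nonempty (Pt p q m) ∧ Nonempty (PtZ p q m) ∧
      (∀ (ρ r : ℝ) (hρ : 0 < ρ) (hr : 0 < r) (y : Pt p q m),
        (modelTAt p q m hρ hr y).DupinWith p q m ∧ (modelTAt p q m hρ hr y).TubeReducible ∧
          (modelTAt p q m hρ hr y).Reducible) ∧
      ∀ y : PtZ p q m, (modelZAt p q m y).DupinWith p q m ∧ (modelZAt p q m y).Reducible) ∧
    -- the equivalences between the models
    (∀ p q m p' q' m' : ℕ, 1 ≤ p → 1 ≤ q → 1 ≤ m → 1 ≤ p' → 1 ≤ q' → 1 ≤ m' →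
      (∀ (ρ r ρ' r' : ℝ) (hρ : 0 < ρ) (hr : 0 < r) (hρ' : 0 < ρ') (hr' : 0 < r')
        (y : Pt p q m) (y' : Pt p' q' m'),
      ((modelTAt p q m hρ hr y).LieEq (modelTAt p' q' m' hρ' hr' y') ↔
        ∃ (π : Equiv.Perm (Fin 3)) (c : ℝ), 0 < c ∧ ∀ i, ![p', q', m'] (π i) = ![p, q, m] i ∧
          ![ρ' ^ 2, 1 - ρ' ^ 2, -1] (π i) = c * ![ρ ^ 2, 1 - ρ ^ 2, -1] i)) ∧
      (∀ (y : PtZ p q m) (y' : PtZ p' q' m'),
      ((modelZAt p q m y).LieEq (modelZAt p' q' m' y') ↔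
        ∃ (π : Equiv.Perm (Fin 3)), ∀ i, ![p', q', m'] (π i) = ![p, q, m] i)) ∧
      ∀ (ρ r : ℝ) (hρ : 0 < ρ) (hr : 0 < r) (y : PtZ p q m) (y' : Pt p' q' m'),
        ¬ (modelZAt p q m y).LieEq (modelTAt p' q' m' hρ hr y')) := by
  refine ⟨?_, ?_, ?_⟩
  · intro A h3
    constructor
    · intro hM
      rcases main₁' A.M h3 A.mem hM with ⟨p, q, m, hp, hq, hm, hs, ρ, hρ, h⟩ |
        ⟨p, q, m, hp, hq, hm, hs, h⟩
      · exact Or.inl ⟨p, q, m, hp, hq, hm, hs, ρ, hρ,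
          fun r hr y => lieEq_modelGen (h r hr y.1 y.2)⟩
      · exact Or.inr ⟨p, q, m, hp, hq, hm, hs, fun y => lieEq_modelZGen (h y.1 y.2)⟩
    · intro hM
      obtain ⟨p, q, m, hp, hq, hm, hs, ρ, hρ, h⟩ := main₁ A.M h3 A.mem hM
      exact ⟨p, q, m, hp, hq, hm, hs, ρ, hρ, fun r hr y => lieEq_modelGen (h r hr y.1 y.2)⟩
  · intro p q m hp hq hm
    have hp' : 1 ≤ finrank ℝ (EuclideanSpace ℝ (Fin p)) := by rwa [finrank_euclideanSpace_fin]
    have hq' : 1 ≤ finrank ℝ (EuclideanSpace ℝ (Fin q)) := by rwa [finrank_euclideanSpace_fin]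
    have hm' : 1 ≤ finrank ℝ (EuclideanSpace ℝ (Fin m)) := by rwa [finrank_euclideanSpace_fin]
    refine ⟨⟨⟨((0, 0), 0), ?_⟩⟩, ?_, fun ρ r hρ hr y => ⟨?_, modelGen_reducible hp' hq' hm',
      (modelGen_reducible hp' hq' hm').reducibleAt'⟩, fun y => ⟨?_, modelZGen_reducible hp' hq' hm'⟩⟩
    · simp
    · have : Nontrivial (EuclideanSpace ℝ (Fin q)) := Module.nontrivial_of_finrank_pos (R := ℝ) hq'
      obtain ⟨w, hw⟩ := exists_ne (0 : EuclideanSpace ℝ (Fin q))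
      exact ⟨⟨((0, w), 0), hw⟩⟩
    · have h := modelGen_dupin hp' hq' hm' (hρ := hρ) (hr := hr) (y := y)
      rw [finrank_euclideanSpace_fin, finrank_euclideanSpace_fin, finrank_euclideanSpace_fin] at h
      exact h
    · have h := modelZGen_dupin hp' hq' hm' (y := y)
      rw [finrank_euclideanSpace_fin, finrank_euclideanSpace_fin, finrank_euclideanSpace_fin] at h
      exact h
  · intro p q m p' q' m' hp hq hm hp' hq' hm'
    refine ⟨fun ρ r ρ' r' hρ hr hρ' hr' y y' => ?_, fun y y' => ?_, fun ρ r hρ hr y y' => ?_⟩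
    · exact modelGen_lieEq finrank_euclideanSpace_fin finrank_euclideanSpace_fin
        finrank_euclideanSpace_fin finrank_euclideanSpace_fin finrank_euclideanSpace_fin
        finrank_euclideanSpace_fin hp hq hm hp' hq' hm'
    · exact modelZGen_lieEq finrank_euclideanSpace_fin finrank_euclideanSpace_fin
        finrank_euclideanSpace_fin finrank_euclideanSpace_fin finrank_euclideanSpace_fin
        finrank_euclideanSpace_fin hp hq hm hp' hq' hm'
    · exact modelZGen_not_lieEq finrank_euclideanSpace_fin finrank_euclideanSpace_fin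
        finrank_euclideanSpace_fin finrank_euclideanSpace_fin finrank_euclideanSpace_fin
        finrank_euclideanSpace_fin hp hq hm hp' hq' hm'

end Pool.Agent.Results.MP_eed254_gt.ReducibleDupinPinkall
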